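import Pool.Agent.H840.MX.Stm

/-!
Max Noether: forms which vanish at the twelve points are in `(F, g)`.
-/

set_option autoImplicit false

namespace Pool.Agent.H967.MX

open MvPolynomial Pool.Agent.T2H40.MI Pool.Agent.H840.MX

/-- the homogeneous component of a multiple of a form -/
theorem comp_mul (a F : S) (k d : ℕ) (hF : F.IsHomogeneous k) :
    homogeneousComponent d (a * F) =
      (if k ≤ d then homogeneousComponent (d - k) a else 0) * F := by
  conv_lhs => rw [← sum_homogeneousComponent a, Finset.sum_mul, map_sum]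
  have h1 : ∀ i ∈ Finset.range (a.totalDegree + 1),
      homogeneousComponent d (homogeneousComponent i a * F) =
        if d = i + k then homogeneousComponent i a * F else 0 := fun i _ =>
    homogeneousComponent_of_mem ((homogeneousComponent_isHomogeneous i a).mul hF)
  rw [Finset.sum_congr rfl h1]
  split_ifs with hk
  · rw [Finset.sum_eq_single (d - k)]
    · rw [if_pos (by omega)]
    · intro i _ hi
      rw [if_neg (by omega)]
    · intro hn
      rw [Finset.mem_range] at hn
      rw [if_pos (by omega), homogeneousComponent_eq_zero _ _ (by omega), zero_mul]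
  · rw [zero_mul]
    refine Finset.sum_eq_zero fun i _ => ?_
    rw [if_neg (by omega)]

/-- a linear form which does not vanish at the points -/
theorem exists_lin (Q : Fin 12 → Fin 3 → ℂ) (hQ : ∀ i, Q i ≠ 0) :
    ∃ r : Fin 3 → ℂ, ∀ i, r ⬝ᵥ Q i ≠ 0 := by
  have h1 : (∏ i, lin (Q i)) ≠ 0 := Finset.prod_ne_zero_iff.2 fun i _ => lin_ne_zero (hQ i)
  have h2 : ∃ r : Fin 3 → ℂ, eval r (∏ i, lin (Q i)) ≠ 0 := by
    by_contra hc
    push Not at hc
    exact h1 (MvPolynomial.funext fun r => by rw [hc r, map_zero])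
  obtain ⟨r, hr⟩ := h2
  refine ⟨r, fun i hi => hr ?_⟩
  rw [map_prod]
  refine Finset.prod_eq_zero (Finset.mem_univ i) ?_
  rw [eval_lin, dotProduct_comm]
  exact hi

/-- **Max Noether** -/
theorem noe (h1 : S_BEZ) (h2 : S_TRV) (h3 : S_D4) : S_NOE := by
  intro F g Q hT d h hh h0
  obtain ⟨r, hr⟩ := exists_lin Q hT.ne
  have hr0 : r ≠ 0 := by
    rintro rfl
    exact hr 0 (zero_dotProduct _)
  have hD : ∀ q : Fin 3 → ℂ, q ≠ 0 → eval q F = 0 → eval q g = 0 → r ⬝ᵥ q ≠ 0 := by
    intro q hq hqF hqg
    obtain ⟨i, t, rfl⟩ := (h2 F g Q hT).1 q hq hqF hqg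
    have ht : t ≠ 0 := by
      rintro rfl
      exact hq (zero_smul _ _)
    rw [dotProduct_smul, smul_eq_mul]
    exact mul_ne_zero ht (hr i)
  have key : ∀ k : ℕ, (∃ a b : S, lin r ^ k * h = a * F + b * g) →
      ∃ a b : S, h = a * F + b * g := by
    intro k
    induction k with
    | zero =>
      rintro ⟨a, b, hab⟩
      exact ⟨a, b, by rw [← hab, pow_zero, one_mul]⟩
    | succ k ih =>
      rintro ⟨a, b, hab⟩
      refine ih (h3 F g r hT.hF hT.hg hr0 hD (lin r ^ k * h) a b ?_)
      rw [← hab]
      ring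
  have hlin : (lin r ^ 11 * h).IsHomogeneous (11 + d) := by
    have := (lin_hom r).pow 11
    rw [one_mul] at this
    exact this.mul hh
  obtain ⟨a, b, hab⟩ := key 11 (h1 F g Q hT (11 + d) _ (by omega) hlin fun i => by
    rw [map_mul, h0 i, mul_zero])
  refine ⟨if 3 ≤ d then homogeneousComponent (d - 3) a else 0,
    if 4 ≤ d then homogeneousComponent (d - 4) b else 0, ?_, ?_, ?_, ?_, ?_⟩
  · rw [← comp_mul a F 3 d hT.hF, ← comp_mul b g 4 d hT.hg, ← map_add, ← hab,
      homogeneousComponent_of_mem hh, if_pos rfl]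
  · split_ifs
    · exact homogeneousComponent_isHomogeneous _ _
    · exact isHomogeneous_zero _ _ _
  · intro hne
    by_contra hc
    exact hne (if_neg hc)
  · split_ifs
    · exact homogeneousComponent_isHomogeneous _ _
    · exact isHomogeneous_zero _ _ _
  · intro hne
    by_contra hc
    exact hne (if_neg hc)

end Pool.Agent.H967.MX
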